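import Pool.Agent.Q208.LS.Lim
import Pool.Agent.Q79.PL.All
import Pool.Agent.H38R2.CG2.RC
import Pool.Agent.Q276.PL.Stm3

/-!
# Project PL (helper276), LS2: few large values of `L(1, chi_D)` in the two families
-/

set_option autoImplicit false

namespace Pool.Agent.Q208.LS

open Finset Filter Pool.Agent.H38R2.CG Pool.Agent.H38R2.CG2 Pool.Agent.Q276.PL
open Pool.Agent.H38R2.CG.FINh Pool.Agent.H38R2.CG2.APh Pool.Agent.Q79.PL
open scoped Classical

/-- the bad set -/
def Bl (κ : ℝ) (X D : ℕ) : Prop := Real.log X ^ κ / 2 < Lone D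

lemma tend_log (κ : ℝ) (hκ : 0 < κ) : Tendsto (fun X : ℕ => Real.log X ^ κ) atTop atTop :=
  (tendsto_rpow_atTop hκ).comp (Real.tendsto_log_atTop.comp tendsto_natCast_atTop_atTop)

/-- few bad discriminants in the weighted sense -/
theorem asq (κ : ℝ) (hκ : 0 < κ) : ASq 3 (Bl κ) := by
  intro C0 hC0 ε hε
  refine ⟨2, fun z hz => ⟨1, one_pos, fun η hη hη1 r hr => ?_⟩⟩
  obtain ⟨X1, hX1⟩ := p_LM 3 (by norm_num) z r hz hr η hη hη1 C0 hC0 1 one_pos
  have hpi : 0 < PiR z r := LMh.PiR_pos z r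
  obtain ⟨A, hA⟩ : ∃ A : ℝ, A = (1 + 1) * (1 + 4 / (z : ℝ)) / PiR z r := ⟨_, rfl⟩
  have hA0 : 0 < A := by rw [hA]; positivity
  obtain ⟨X2, hX2⟩ := eventually_atTop.1 ((tend_log κ hκ).eventually_ge_atTop (2 * A / ε))
  refine ⟨max (max X1 X2) 3, fun X hX ρ hρ => ?_⟩
  have hXa : X1 ≤ X := (le_max_left _ _).trans ((le_max_left _ _).trans hX)
  have hXb : X2 ≤ X := (le_max_right _ _).trans ((le_max_left _ _).trans hX)
  have hXc : 3 ≤ X := (le_max_right _ _).trans hX
  have hXr : (3 : ℝ) ≤ X := by exact_mod_cast hXc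
  have h1 := hX1 X hXa ρ hρ
  have h2 := hX2 X hXb
  have hlog : 0 < Real.log X := Real.log_pos (by linarith)
  obtain ⟨l, hl⟩ : ∃ l : ℝ, l = Real.log X ^ κ := ⟨_, rfl⟩
  rw [← hl] at h2
  have hl0 : 0 < l := by rw [hl]; positivity
  have hGpos : 0 ≤ GG X ρ := le_trans (by positivity) hρ.low
  have hQ : (0 : ℝ) < Qz z := by exact_mod_cast AS1h.Qz_pos z
  have hWW : 0 ≤ WW z X η ρ := by unfold WW; positivity
  have hcc : cc 3 ≤ 1 := by unfold cc; norm_num
  have hFD : ∀ D ∈ FD z r X η, 1 ≤ D ∧ IsFund D := by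
    intro D hD
    unfold FD DD at hD
    rw [Finset.mem_filter, Finset.mem_filter, Finset.mem_Ioc] at hD
    exact ⟨by omega, hD.2⟩
  calc ∑ D ∈ (FD z r X η).filter (fun D => Bl κ X D), wt ρ D
      ≤ ∑ D ∈ (FD z r X η).filter (fun D => Bl κ X D), 2 / l * (wt ρ D * Lone D) := by
        refine Finset.sum_le_sum fun D hD => ?_
        rw [Finset.mem_filter] at hD
        have h3 : l / 2 < Lone D := by rw [hl]; exact hD.2
        have h4 := wt_nonneg (by omega) hcc hρ D (hFD D hD.1).1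
        have h5 : 1 ≤ 2 / l * Lone D := by
          rw [div_mul_eq_mul_div, le_div_iff₀ hl0]
          linarith
        calc wt ρ D = wt ρ D * 1 := (mul_one _).symm
          _ ≤ wt ρ D * (2 / l * Lone D) := mul_le_mul_of_nonneg_left h5 h4
          _ = _ := by ring
    _ ≤ ∑ D ∈ FD z r X η, 2 / l * (wt ρ D * Lone D) := by
        refine Finset.sum_le_sum_of_subset_of_nonneg (Finset.filter_subset _ _) fun D hD _ => ?_
        have h4 := wt_nonneg (by omega) hcc hρ D (hFD D hD).1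
        have h5 := lnn D (hFD D hD).2
        positivity
    _ = 2 / l * ∑ D ∈ FD z r X η, wt ρ D * Lone D := (Finset.mul_sum _ _ _).symm
    _ ≤ 2 / l * ((1 + 1) * (1 + 4 / z) * WW z X η ρ / PiR z r) :=
        mul_le_mul_of_nonneg_left h1 (by positivity)
    _ = 2 * A / l * WW z X η ρ := by rw [hA]; ring
    _ ≤ ε * WW z X η ρ := by
        refine mul_le_mul_of_nonneg_right ?_ hWW
        rw [div_le_iff₀ hε] at h2
        rw [div_le_iff₀ hl0]
        linarith

/-- large values of `L(1, chi)` give bad discriminants -/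
theorem excBq (κ : ℝ) (hκ : 0 < κ) : ExcBq (Bl κ) (fun d => Real.log d ^ κ < Lone (dsc d)) := by
  obtain ⟨q, hq⟩ : ∃ q : ℝ, q = (1 / 2 : ℝ) ^ (1 / κ) := ⟨_, rfl⟩
  have hq0 : 0 < q := by rw [hq]; positivity
  have hq1 : q < 1 := by
    rw [hq]
    exact Real.rpow_lt_one (by norm_num) (by norm_num) (by positivity)
  have hqκ : q ^ κ = 1 / 2 := by
    rw [hq, ← Real.rpow_mul (by norm_num), one_div_mul_cancel hκ.ne', Real.rpow_one]
  have ht : Tendsto (fun X : ℕ => Real.log X) atTop atTop :=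
    Real.tendsto_log_atTop.comp tendsto_natCast_atTop_atTop
  obtain ⟨X1, hX1⟩ := eventually_atTop.1 (ht.eventually_ge_atTop (Real.log 4 / (1 - q)))
  refine ⟨max X1 5, fun X hX d hd hsq hexc h1 _ => ?_⟩
  have hXa : X1 ≤ X := (le_max_left _ _).trans hX
  have hXc : 5 ≤ X := (le_max_right _ _).trans hX
  have hXr : (5 : ℝ) ≤ X := by exact_mod_cast hXc
  refine ⟨isFund_Dof hd hsq, ?_⟩
  have h2 := hX1 X hXa
  rw [div_le_iff₀ (by linarith)] at h2
  have h3 : (X : ℝ) / 4 ≤ d := by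
    have h4 : X < 4 * d := lt_of_lt_of_le h1 (Dof_le d)
    have h5 : (X : ℝ) < 4 * d := by exact_mod_cast h4
    linarith
  have h6 : q * Real.log X ≤ Real.log d := by
    have h7 := Real.log_le_log (by linarith) h3
    rw [Real.log_div (by linarith) (by norm_num)] at h7
    linarith
  have hlog : 0 < Real.log X := Real.log_pos (by linarith)
  have h8 : (q * Real.log X) ^ κ ≤ Real.log d ^ κ := Real.rpow_le_rpow (by positivity) h6 hκ.le
  rw [Real.mul_rpow hq0.le hlog.le, hqκ] at h8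
  show Real.log X ^ κ / 2 < Lone (Dof d)
  have h9 : Real.log d ^ κ < Lone (Dof d) := hexc
  linarith

/-- **LS2** -/
theorem ls2 : StmtLS2 := by
  intro κ hκ
  exact ⟨semi_tendsto p_BH T2_RC 3 (by norm_num) (Bl κ) (asq κ hκ) _ (excBq κ hκ),
    two_tendsto p_BH T2_RC 3 (by norm_num) (Bl κ) (asq κ hκ) _ (excBq κ hκ)⟩

end Pool.Agent.Q208.LS
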